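import Pool.Agent.Y485.HS.Stm2
import Pool.Agent.W660.GY.M1x
import Pool.Agent.W660.GY.Main2

/-!
# Project HS: groups without small subgroups have a chart of exponential type

The assembly follows `Pool/Agent/W660/GY/M1x.lean` (Gleason-Yamabe theorem, part 1), and the
smoothness of the multiplication follows `Pool/Agent/W880/GY/MUL.lean`.
-/

set_option autoImplicit false

namespace Pool.Agent.Y328.HS

open Pool.Agent.W660.FL Pool.Agent.W660.GY Pool.Agent.W880.GY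
open Filter Topology
open scoped Manifold ContDiff

/-- Smoothness of the multiplication in the exponential chart, on a ball. -/
theorem mulB (hDER : S_DER) (hLEFT : S_LEFT) (hBOOT : S_BOOT) (G : Type) [Group G]
    [TopologicalSpace G] [IsTopologicalGroup G] (E : Type) [NormedAddCommGroup E]
    [NormedSpace ℝ E] [FiniteDimensional ℝ E] (C : CS G E) (Ad : G →* (E →L[ℝ] E))
    (ad : E →L[ℝ] (E →L[ℝ] E)) (φ : (E →L[ℝ] E) → (E →L[ℝ] E)) (hAd : IsAd C Ad)
    (had : Isad C Ad ad) (hφ : IsPhi φ) :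
    ∃ δ > 0, ∀ p : E × E, ‖p‖ < δ →
      ContDiffAt ℝ ∞ (fun p : E × E => C.κ (C.κ.symm p.1 * C.κ.symm p.2)) p := by
  have : CompleteSpace E := FiniteDimensional.complete ℝ E
  obtain ⟨δ1, hδ1, h1⟩ := hDER G E C Ad ad φ hAd had hφ
  obtain ⟨δ2, hδ2, K2, _, h2⟩ := hLEFT G E C Ad ad φ hAd had hφ
  obtain ⟨δ3, hδ3, K, hK, h3⟩ := C.est
  have hfun : (fun p : E × E => C.κ (C.κ.symm p.1 * C.κ.symm p.2)) =
      fun p : E × E => C.κ (C.e p.1 * C.e p.2) := by
    funext p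
    rw [C.symm, C.symm]
  rw [hfun]
  set m : E × E → E := fun p => C.κ (C.e p.1 * C.e p.2) with hm
  set δ : ℝ := min (min δ1 δ3) (min 1 (δ2 / (2 + K))) with hδ
  have hKp : 0 < 2 + K := by linarith
  have hδpos : 0 < δ := by
    rw [hδ]
    exact lt_min (lt_min hδ1 hδ3) (lt_min one_pos (div_pos hδ2 hKp))
  have hsm : ∀ p : E × E, ‖p‖ < δ → ‖m p‖ < δ2 := by
    intro p hp
    have hp1 : ‖p.1‖ ≤ ‖p‖ := norm_fst_le p
    have hp2 : ‖p.2‖ ≤ ‖p‖ := norm_snd_le p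
    have hd3 : ‖p‖ < δ3 := lt_of_lt_of_le hp ((min_le_left _ _).trans (min_le_right _ _))
    have hd1 : ‖p‖ < 1 := lt_of_lt_of_le hp ((min_le_right _ _).trans (min_le_left _ _))
    have hd2 : ‖p‖ < δ2 / (2 + K) :=
      lt_of_lt_of_le hp ((min_le_right _ _).trans (min_le_right _ _))
    have h := (h3 p.1 p.2 (lt_of_le_of_lt hp1 hd3) (lt_of_le_of_lt hp2 hd3)).2
    have h4 : ‖m p‖ ≤ ‖m p - (p.1 + p.2)‖ + ‖p.1 + p.2‖ := by
      have := norm_add_le (m p - (p.1 + p.2)) (p.1 + p.2)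
      simpa using this
    have h5 : ‖p.1 + p.2‖ ≤ ‖p.1‖ + ‖p.2‖ := norm_add_le _ _
    have h6 : K * ‖p.1‖ * ‖p.2‖ ≤ K * ‖p‖ := by
      have a1 : K * ‖p.1‖ ≤ K * ‖p‖ := mul_le_mul_of_nonneg_left hp1 hK.le
      have a2 : ‖p.2‖ ≤ 1 := hp2.trans hd1.le
      calc K * ‖p.1‖ * ‖p.2‖ ≤ K * ‖p.1‖ * 1 :=
            mul_le_mul_of_nonneg_left a2 (mul_nonneg hK.le (norm_nonneg _))
        _ = K * ‖p.1‖ := mul_one _
        _ ≤ K * ‖p‖ := a1
    have h7 : (2 + K) * ‖p‖ < δ2 := by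
      rw [lt_div_iff₀ hKp] at hd2
      linarith
    have h8 : ‖m p‖ ≤ (2 + K) * ‖p‖ := by
      have : ‖m p - (p.1 + p.2)‖ ≤ K * ‖p.1‖ * ‖p.2‖ := h
      nlinarith
    exact lt_of_le_of_lt h8 h7
  let Ψ : E × E → E → ((E × E) →L[ℝ] E) := fun p w =>
    (Ring.inverse (φ (ad w))).comp
      ((φ (ad p.1)).comp (ContinuousLinearMap.fst ℝ E E) +
        ((NormedSpace.exp (ad p.1)).comp (φ (ad p.2))).comp (ContinuousLinearMap.snd ℝ E E))
  have hder : ∀ p : E × E, ‖p‖ < δ → HasFDerivAt m (Ψ p (m p)) p := by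
    intro p hp
    have hp1 : ‖p.1‖ < δ1 := lt_of_le_of_lt (norm_fst_le p)
      (lt_of_lt_of_le hp ((min_le_left _ _).trans (min_le_left _ _)))
    have hp2 : ‖p.2‖ < δ1 := lt_of_le_of_lt (norm_snd_le p)
      (lt_of_lt_of_le hp ((min_le_left _ _).trans (min_le_left _ _)))
    exact h1 p.1 p.2 hp1 hp2
  have hsmooth : ∀ p : E × E, ‖p‖ < δ →
      ContDiffAt ℝ ∞ (fun q : (E × E) × E => Ψ q.1 q.2) (p, m p) := by
    intro p hp
    have hu : IsUnit (φ (ad (m p))) :=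
      (h2 0 (m p) (by rw [norm_zero]; exact hδ2) (hsm p hp)).1
    obtain ⟨u, hu⟩ := hu
    have c1 : ContDiffAt ℝ ∞ (fun q : (E × E) × E => φ (ad q.2)) (p, m p) :=
      (hφ.1.comp (ad.contDiff.comp contDiff_snd)).contDiffAt
    have c2 : ContDiffAt ℝ ∞ (fun q : (E × E) × E => φ (ad q.1.1)) (p, m p) :=
      (hφ.1.comp (ad.contDiff.comp (contDiff_fst.comp contDiff_fst))).contDiffAt
    have c3 : ContDiffAt ℝ ∞ (fun q : (E × E) × E => φ (ad q.1.2)) (p, m p) :=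
      (hφ.1.comp (ad.contDiff.comp (contDiff_snd.comp contDiff_fst))).contDiffAt
    have c4 : ContDiffAt ℝ ∞ (fun q : (E × E) × E => NormedSpace.exp (ad q.1.1)) (p, m p) := by
      have e1 : ContDiffAt ℝ ∞ (NormedSpace.exp : (E →L[ℝ] E) → (E →L[ℝ] E)) (ad p.1) :=
        (NormedSpace.exp_analytic (𝕂 := ℝ) (ad p.1)).contDiffAt
      have e2 : ContDiffAt ℝ ∞ (fun q : (E × E) × E => ad q.1.1) (p, m p) :=
        (ad.contDiff.comp (contDiff_fst.comp contDiff_fst)).contDiffAt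
      exact ContDiffAt.comp (p, m p) e1 e2
    have c5 : ContDiffAt ℝ ∞ (fun q : (E × E) × E => Ring.inverse (φ (ad q.2))) (p, m p) := by
      have e1 : ContDiffAt ℝ ∞ (Ring.inverse : (E →L[ℝ] E) → (E →L[ℝ] E)) (φ (ad (m p))) := by
        rw [← hu]
        exact contDiffAt_ringInverse ℝ u
      exact ContDiffAt.comp (p, m p) e1 c1
    exact c5.clm_comp ((c2.clm_comp contDiffAt_const).add
      ((c4.clm_comp c3).clm_comp contDiffAt_const))
  refine ⟨δ / 2, by positivity, fun p0 hp0 => ?_⟩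
  have hnear : ∀ q : E × E, ‖q‖ < δ / 2 → ‖p0 + q‖ < δ := by
    intro q hq
    linarith [norm_add_le p0 q]
  have key : ContDiffAt ℝ ∞ (fun q : E × E => m (p0 + q)) 0 := by
    refine hBOOT E (E × E) (fun q => m (p0 + q)) (fun q w => Ψ (p0 + q) w) (δ / 2)
      (by positivity) ?_ ?_
    · intro q hq
      have h4 := hder (p0 + q) (hnear q hq)
      have h5 : HasFDerivAt (fun q : E × E => p0 + q) (ContinuousLinearMap.id ℝ (E × E)) q :=
        (hasFDerivAt_id q).const_add p0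
      have h6 := h4.comp q h5
      rwa [ContinuousLinearMap.comp_id] at h6
    · intro q hq
      have h4 := hsmooth (p0 + q) (hnear q hq)
      have h5 : ContDiffAt ℝ ∞ (fun z : (E × E) × E => (p0 + z.1, z.2)) (q, m (p0 + q)) :=
        ((contDiff_const.add contDiff_fst).prodMk contDiff_snd).contDiffAt
      exact ContDiffAt.comp (q, m (p0 + q)) (g := fun q : (E × E) × E => Ψ q.1 q.2) h4 h5
  have h7 : ContDiffAt ℝ ∞ (fun q : E × E => q - p0) p0 :=
    (contDiff_id.sub contDiff_const).contDiffAt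
  have h8 : ContDiffAt ℝ ∞ ((fun q : E × E => m (p0 + q)) ∘ fun q : E × E => q - p0) p0 := by
    apply ContDiffAt.comp
    · rw [sub_self]
      exact key
    · exact h7
  have h9 : ((fun q : E × E => m (p0 + q)) ∘ fun q : E × E => q - p0) = m := by
    funext q
    simp only [Function.comp_apply, add_sub_cancel]
  rwa [h9] at h8

/-- **Locally compact groups without small subgroups have a chart of exponential type.** -/
theorem lga : Pool.Agent.Y485.HS.S_LGA := by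
  intro G _ _ _ _ _ hN
  have hBASE : S_BASE := t_BASE
  have hCJ : S_CJ := t_CJ
  have hA2 : S_A2 := t_A2 hCJ
  have hA3 : S_A3 := t_A3 hA2
  have hGL : S_GL := t_GL hBASE
  have hN1 : S_N1 := t_N1 hBASE
  have hN2 : S_N2 := t_N2 hBASE hN1
  have hT1 : S_T1 := t_T1 hBASE hA3 hN1
  have hT2 : S_T2 := t_T2 hBASE hA2 hGL hN2
  have hTC : S_TC := t_TC hBASE hCJ hN1 hT1
  have hVS : S_VS := t_VS hBASE hN2 hT1 hT2 hTC
  have hLE : S_LE := t_LE hBASE hN2 hT1 hT2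
  have hBL : S_BL := t_BL hBASE hCJ hA3 hN2
  have hFD : S_FD := t_FD hBASE hN2 hBL
  have hSJ : S_SJ := t_SJ hBASE hGL hA3 hN2 hLE hBL hFD
  have hCS : S_CS := t_CS hBASE hN2 hLE hBL hSJ
  have hKEY : S_KEY := t_KEY
  have hAD1 : S_AD1 := t_AD1 hKEY
  have hAD : S_AD := t_AD hAD1
  have hAO : S_AO := t_AO hKEY
  have had : S_ad := t_ad t_ONEP hAO
  have hDEXP : S_DEXP := t_DEXP t_PROD
  have hLEFT : S_LEFT := t_LEFT hDEXP
  have hDER : S_DER := t_DER hDEXP hLEFT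
  obtain ⟨ν, hν⟩ := gy2 G hN
  obtain ⟨E, iE1, iE2, ⟨L⟩⟩ := hVS G ν hν
  have hf := hFD G ν hν E L
  obtain ⟨C⟩ := hCS G ν hν E L
  obtain ⟨Ad, hAd⟩ := hAD G E C
  obtain ⟨ad, hadd⟩ := had G E C Ad hAd
  obtain ⟨φ, hφ⟩ := t_PHI E
  obtain ⟨δ, hδ, hmul⟩ := mulB hDER hLEFT t_BOOT G E C Ad ad φ hAd hadd hφ
  have ht := IC.nhds_target C
  refine ⟨E, iE1, iE2, hf, ⟨⟨C.κ, C.one_mem, C.map_one, δ, hδ, hmul, ?_, fun g => Ad g, ?_⟩⟩⟩
  · have hc : Tendsto (fun a : E => -a) (𝓝 0) (𝓝 0) := by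
      simpa using (continuous_neg (G := E)).tendsto 0
    filter_upwards [hc ht] with a ha
    rw [C.symm, IC.inv_e]
    exact IC.kap C ha
  · intro g
    have hc : Tendsto (fun a : E => Ad g a) (𝓝 0) (𝓝 0) := by
      simpa using (Ad g).continuous.tendsto 0
    filter_upwards [hc ht] with a ha
    rw [C.symm, hAd g a]
    exact IC.kap C ha

end Pool.Agent.Y328.HS
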